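import Pool.Agent.W873.RS.Stm

set_option autoImplicit false

open MeasureTheory ProbabilityTheory Polynomial Filter Topology
open scoped ENNReal

namespace Pool.Agent.W336.RS.DET1

open Pool.Agent.W873.RS

theorem signVariations_lt (p : ℝ[X]) (hp : p ≠ 0) : p.signVariations < p.support.card := by
  induction hn : p.support.card using Nat.strong_induction_on generalizing p with
  | _ n ih =>
    have hpos : 0 < p.support.card := by
      rw [Finset.card_pos, Polynomial.nonempty_support_iff]
      exact hp
    by_cases he : p.eraseLead = 0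
    · have h1 := signVariations_le_eraseLead_succ (P := p)
      have h2 : p = monomial p.natDegree p.leadingCoeff := by
        have := p.eraseLead_add_monomial_natDegree_leadingCoeff
        rw [he, zero_add] at this
        exact this.symm
      rw [h2, signVariations_monomial]
      omega
    · have hc : p.eraseLead.support.card = n - 1 := by rw [card_support_eraseLead, hn]
      have h1 := signVariations_le_eraseLead_succ (P := p)
      have h2 := ih (n - 1) (by omega) p.eraseLead he (by rw [hc])
      omega

theorem card_lt_support {p : ℝ[X]} (hp : p ≠ 0) (s : Finset ℝ) (hs : ∀ x ∈ s, 0 < x ∧ p.eval x = 0) :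
    s.card < p.support.card := by
  classical
  refine lt_of_le_of_lt ?_ (signVariations_lt p hp)
  refine le_trans ?_ (roots_countP_pos_le_signVariations p)
  rw [Multiset.countP_eq_card_filter]
  have hsub : s.val ≤ p.roots.filter (0 < ·) := by
    rw [Multiset.le_iff_subset s.nodup]
    intro x hx
    rw [Multiset.mem_filter, mem_roots hp]
    exact ⟨(hs x hx).2, (hs x hx).1⟩
  exact Multiset.card_le_card hsub

theorem main : DET1 := by
  classical
  intro g ε hε
  by_cases hg : g = 0
  · subst hg
    have : chg (fun x => (0 : ℝ[X]).eval x) ε = ∅ := by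
      ext x
      simp [chg, sc]
    rw [this]
    simp
  set s : Finset ℝ := g.roots.toFinset.filter (fun x => 0 < x) with hs
  have hsmem : ∀ x, x ∈ s ↔ 0 < x ∧ g.eval x = 0 := by
    intro x
    rw [hs, Finset.mem_filter, Multiset.mem_toFinset, mem_roots hg]
    exact ⟨fun h => ⟨h.2, h.1⟩, fun h => ⟨h.2, h.1⟩⟩
  have hcard : s.card ≤ g.support.card - 1 := by
    have := card_lt_support hg s (fun x hx => (hsmem x).1 hx)
    omega
  have hsub : chg (fun x => g.eval x) ε ⊆ ⋃ r ∈ s, Set.Icc (r - ε) r := by
    intro x hx
    obtain ⟨hx0, hsc⟩ := hx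
    have hcont : ContinuousOn (fun x => g.eval x) (Set.Icc x (x + ε)) :=
      g.continuous.continuousOn
    have hle : x ≤ x + ε := by linarith
    have hroot : ∃ r ∈ Set.Icc x (x + ε), g.eval r = 0 := by
      unfold sc at hsc
      simp only at hsc
      rcases lt_or_ge (g.eval x) 0 with h1 | h1
      · have h2 : 0 ≤ g.eval (x + ε) := by
          by_contra h
          exact hsc ⟨fun _ => not_le.1 h, fun _ => h1⟩
        have := intermediate_value_Icc hle hcont
        obtain ⟨r, hr, hr0⟩ := this ⟨h1.le, h2⟩
        exact ⟨r, hr, hr0⟩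
      · have h2 : g.eval (x + ε) < 0 := by
          by_contra h
          exact hsc ⟨fun h' => absurd h' (not_lt.2 h1), fun h' => absurd h' h⟩
        have := intermediate_value_Icc' hle hcont
        obtain ⟨r, hr, hr0⟩ := this ⟨h2.le, h1⟩
        exact ⟨r, hr, hr0⟩
    obtain ⟨r, hr, hr0⟩ := hroot
    rw [Set.mem_iUnion₂]
    refine ⟨r, (hsmem r).2 ⟨by linarith [hr.1], hr0⟩, ?_, ?_⟩
    · linarith [hr.2]
    · exact hr.1
  calc volume (chg (fun x => g.eval x) ε) ≤ volume (⋃ r ∈ s, Set.Icc (r - ε) r) :=
        measure_mono hsub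
    _ ≤ ∑ r ∈ s, volume (Set.Icc (r - ε) r) := measure_biUnion_finset_le _ _
    _ = ∑ r ∈ s, ENNReal.ofReal ε := by
        refine Finset.sum_congr rfl fun r _ => ?_
        rw [Real.volume_Icc]
        congr 1; ring
    _ = ENNReal.ofReal ε * (s.card : ℝ≥0∞) := by
        rw [Finset.sum_const, nsmul_eq_mul, mul_comm]
    _ ≤ ENNReal.ofReal ε * ((g.support.card - 1 : ℕ) : ℝ≥0∞) := by
        gcongr

end Pool.Agent.W336.RS.DET1
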